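import Pool.Agent.Work.MP_88b7aa_gt.Kc.Mdk
import Pool.Agent.Work.MP_88b7aa_gt.D3.Tpl

/-! The check functions of the class. -/

set_option autoImplicit false

namespace Pool.Agent.Work.MP_88b7aa_gt.D.C3_3_4

open Pool.Agent.Work.MP_88b7aa_gt.PQ
open Pool.Agent.Work.MP_88b7aa_gt.Kc

noncomputable def H : Chs Dt := mkH 2 [fS 2 D3.A33]

theorem H_ok : H.OK (KS (.ex 3) (.ex 3) (.iv 4 0)) := mkH_ok (by decide) (by decide) (LF.cons (fS_ok (D3.A33_ok _) (by decide)) LF.nil)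

end Pool.Agent.Work.MP_88b7aa_gt.D.C3_3_4
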