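import Pool.Agent.Work.MP_88b7aa_gt.D.C3_3_4.F0
import Pool.Agent.Work.MP_88b7aa_gt.D.C3_3_4.F1

/-! The class is done. -/

set_option autoImplicit false

namespace Pool.Agent.Work.MP_88b7aa_gt.D.C3_3_4

open Pool.Agent.Work.MP_88b7aa_gt.PQ
open Pool.Agent.Work.MP_88b7aa_gt.Kc

theorem g0 : Good (KS (.ex 3) (.ex 3) (.iv 4 0)) H.k ⟨⟨140737488355328, 0, 0, 0, 0, 16⟩, ⟨140737488355328, 0, 0, 0, 0, 16⟩, ⟨209338111098880, 0, 10305266515968, 0, 0, 0⟩, ⟨44928847577088, 16380267069440, 4211936854016, 0, 0, 0⟩⟩ :=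
  mB_good H_ok M0.k LB.nil

theorem g1 : Good (KS (.ex 3) (.ex 3) (.iv 4 0)) H.k ⟨⟨140737488355328, 0, 0, 0, 0, 16⟩, ⟨140737488355328, 0, 0, 0, 0, 16⟩, ⟨229948644130816, 0, 10305266515968, 0, 0, 0⟩, ⟨50925804716032, 18200251072512, 3674948501504, 0, 0, 0⟩⟩ :=
  mB_good H_ok M1.k LB.nil

theorem g2 : Good (KS (.ex 3) (.ex 3) (.iv 4 0)) H.k ⟨⟨140737488355328, 0, 0, 0, 0, 16⟩, ⟨140737488355328, 0, 0, 0, 0, 16⟩, ⟨250559177162752, 0, 10305266515968, 0, 0, 0⟩, ⟨56246480666624, 19866295730176, 3352406523904, 0, 0, 0⟩⟩ :=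
  mB_good H_ok M2.k LB.nil

theorem g3 : CGood (KS (.ex 3) (.ex 3) (.iv 4 0)) H.k ⟨140737488355328, 0, 0, 0, 0, 16⟩ ⟨140737488355328, 0, 0, 0, 0, 16⟩ ⟨271169710194688, 0, 10305266515968, 0, 0, 0⟩ ⟨0, 0, 0, 0, 0, 0⟩ :=
  mC_good H_ok M3.k LB.nil LC.nil

theorem g4 : CGood (KS (.ex 3) (.ex 3) (.iv 4 0)) H.k ⟨140737488355328, 0, 0, 0, 0, 16⟩ ⟨140737488355328, 0, 0, 0, 0, 16⟩ ⟨240253910646784, 0, 41221066063872, 0, 0, 0⟩ ⟨0, 0, 0, 0, 0, 0⟩ :=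
  mC_good H_ok M4.k (LB.cons g0 (LB.cons g1 (LB.cons g2 LB.nil))) (LC.cons g3 LC.nil)

theorem done : Done (KS (.ex 3) (.ex 3) (.iv 4 0)) := fin (by decide +kernel) g4

end Pool.Agent.Work.MP_88b7aa_gt.D.C3_3_4
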